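import Mathlib
import Pool.Agent.Run7.h479.SO.Frob
import Pool.Agent.Run7.h479.SO.Criteria

/-!
# The Mumford-Tate conjecture for abelian varieties with a Frobenius element whose slopes on a half
orbit do not sum to a sum of prime divisors of the dimension

Let `A` be an abelian variety over a number field (or a finitely generated subfield of the complex
numbers), of any dimension and with arbitrary endomorphisms, which has good reduction at ONE place
`v`, with a residue field of `p ^ a` elements, such that the characteristic polynomial of the
Frobenius element at `v` is the product of the minimal polynomials of Weil numbers `π i` in CM
fields `F i` of degree `2 n i` (`HasFrobenius`); so `dim A = ∑ i, n i`. The starting results for one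
Frobenius element need one of: large Galois groups, degrees that are (twice) powers of a prime
number, or almost all slope types. Here the degrees are arbitrary and the Galois groups may be as
small as cyclic groups. We assume:

* (`HalfOrbit`) There is a set `O` of complex embeddings of `F i`, one of each pair of complex
  conjugate embeddings, which is an orbit of a group of automorphisms of `ℂ` that acts on `O`
  through a commutative group. By Chebotarev's density theorem it is enough that some prime number is
  inert in the maximal real subfield of `F i` and splits in `F i` (then one automorphism generates a
  group with such an orbit; this is proved in the file `Criteria.lean`). If `F i` contains an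
  imaginary quadratic field `E`, it is enough that some prime number is inert in the maximal real
  subfield (whose normal closure is real, and so linearly disjoint from `E`), and `O` is the set of
  the embeddings that extend a given embedding of `E`.
* (`GoodSlopes`) We write `cdev ν a x φ = 2 ord_p (x) - a` for the deviation of the slope of `x` at
  the embedding `φ` from the middle, where an isomorphism `ν` of the algebraic closure of `ℚ_p` with
  `ℂ` makes `φ` a `p`-adic embedding. For some `ν` the sum of the deviations of `π i` over `O` is not
  zero; and for some `ν` the deviations of `π i` on `O` are `b w + c` with real numbers `b ≠ 0`, `c`
  and natural numbers `w`, such that **the sum `k` of the numbers `w` over `O` is not a sum of prime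
  divisors of `n i`** (with repetitions; `0` is the empty sum).
* (`Separated`, only if there are several fields) For `i ≠ i'` some automorphism acts on the complex
  embeddings of each of the fields as `1` or as the complex conjugation, as `1` for `F i` and as the
  complex conjugation for `F i'`.

For instance let there be one field and let the slopes be `λ` and `1 - λ` only, `λ ≠ 1/2` (`λ = 0` is
the ordinary case). Then `w` can be the characteristic function of the set of the embeddings in `O`
with slope `1 - λ`, and `k` is the number of these embeddings; by the same argument for the
complement, it is enough that `k` or `n - k` is not a sum of prime divisors of `n` (and `2 k ≠ n`).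
For `n = 15` the only signatures `(k, n - k)` which are excluded are those with `k` or `n - k` equal
to `0, 3, 5, 6`. In general the condition is true if `0 < k` is less than all prime divisors of `n`,
and if `k = r s - r - s` and `n` is divisible by no primes other than `r` and `s` (proved in
`Criteria.lean`). Conversely, the condition cannot be improved for the cyclic group of order `n`: if
`k` is a sum of prime divisors of `n` then it is the sum of the values of a function `w` which is a
sum of characteristic functions of cosets of subgroups of prime order, and the translates of this
`w` do not span the functions on the group.

**Then, for all prime numbers `ℓ`, all Tate classes in the tensor powers of `H^1` (and so in the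
cohomology of all powers of `A`) are linear combinations of Hodge classes, and even of products of
Hodge classes of degree two** (`MumfordTateStrong`). Together with the theorem of Deligne (Hodge
classes are Tate classes) this is the equality of the Mumford-Tate group (over `ℚ_ℓ`) and of the
connected component of the `ℓ`-adic monodromy group: both are reductive, so that they are determined
by their invariants in the spaces `(H^1)^{⊗ 2 m}(m)`. So the Mumford-Tate conjecture holds for `A`,
and the Hodge and the Tate conjecture hold for all powers of `A`.

In the formal statement (`IsRealization`) `W` is `H_1(A, ℚ)`, `T` the tangent space at the origin and
`per : W → T` the inclusion, `ω₀` is the form given by a polarization; `V` is the rational Tate module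
with the comparison map `comp : W → V`, the action `ρ` of the Galois group and the Weil pairing `ω`;
`χ` is the cyclotomic character. The theorems of Faltings on endomorphisms and on semisimplicity are
part of the data. That the absence of relations between the conjugates of the Weil numbers of one
Frobenius element implies the Mumford-Tate conjecture was formalized before (starting files,
MP_c1bb77_ag OneFrobeniusTowers).

The proof. Suppose that the product of some powers `φ (π i) ^ m (i, φ)` is a power of `q = p ^ a`, up
to a root of unity. Let `c (i, φ) = m (i, φ) - m (i, conj φ)`. The `p`-adic valuations of the images
under the automorphisms `σ` give `∑ c (i, φ) * cdev (σ φ) = 0`. `Separated` and Dedekind's theorem on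
the linear independence of characters (of the group of the automorphisms acting as `± 1`) give these
relations for every `i` separately. The sum over the orbit `O` and the first slope condition give
`∑_O c = 0`, and then the second slope condition gives `∑_O c (φ) w (σ φ) = 0` for all `σ` in the
group. The commutative transitive group `B` of permutations of `O` is simply transitive, so `w` is a
function on the group `B`, and if `c ≠ 0`, then a Fourier coefficient `∑ w (b) ψ (b)` of `w` for a
character `ψ` of `B` is zero. Its terms are `k` roots of unity of order dividing `n`, and by the
theorem of Lam and Leung (1996) on vanishing sums of roots of unity the number `k` of terms is a sum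
of prime divisors of `n`, a contradiction. The theorem of Lam and Leung is proved in the files `LL`.
-/

set_option autoImplicit false

namespace Pool.Agent.Results.MP_33b3f9_ag.VanishingSums

open NumberField Module Pool.Agent.H204R3.GP Pool.Agent.TH170 Pool.Agent.Run7.h479.SO

/-- **The Mumford-Tate conjecture for abelian varieties with a Frobenius element with good slopes on
half orbits.** -/
theorem result (p : ℕ) [Fact p.Prime] (a : ℕ) (ha : 0 < a)
    (ι : Type) [Fintype ι] (F : ι → Type) [∀ i, Field (F i)] [∀ i, NumberField (F i)]
    [∀ i, IsCMField (F i)] (π : ∀ i, F i)
    (hweil : ∀ i, π i * IsCMField.complexConj (F i) (π i) = (p : F i) ^ a)
    (hsep : Separated F) (hgood : ∀ i, GoodSlopes p a (π i))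
    (ℓ : ℕ) [Fact ℓ.Prime] (W T V Γ : Type) [AddCommGroup W] [Module ℚ W]
    [AddCommGroup T] [Module ℂ T] [AddCommGroup V] [Module ℚ_[ℓ] V] [FiniteDimensional ℚ_[ℓ] V]
    [Group Γ] (per : W →+ T) (ω₀ : W →ₗ[ℚ] W →ₗ[ℚ] ℚ) (comp : W →+ V)
    (ρ : Representation ℚ_[ℓ] Γ V) (χ : Γ →* ℚ_[ℓ]) (ω : V →ₗ[ℚ_[ℓ]] V →ₗ[ℚ_[ℓ]] ℚ_[ℓ])
    (hR : FT.IsRealization per ω₀ comp ρ χ ω) (hF : FT.HasFrobenius ρ χ p a π) :
    MumfordTateStrong per comp ρ χ :=
  mumfordTate_of_good ha hweil hsep hgood hR hF

end Pool.Agent.Results.MP_33b3f9_ag.VanishingSums
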