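import Mathlib
import Pool.Agent.Run7.h479.SO.Main
import Pool.Agent.Run7.h479.SO.Criteria
import Pool.Agent.Y1.TS.Main

/-!
# The Tate conjecture for products of powers of an abelian variety with a Frobenius element whose slopes
on a half orbit do not sum to a sum of prime divisors of the dimension, with other abelian varieties

Let `A` be an abelian variety over a finitely generated field `k` of any characteristic, of any dimension and with arbitrary endomorphisms, which has good reduction at ONE place
`v`, with a residue field of `p ^ a` elements, such that the characteristic polynomial of the
Frobenius element at `v` is the product of the minimal polynomials of Weil numbers `π i` in CM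
fields `F i` of degree `2 n i` (`IsPolarised`); so `dim A = ∑ i, n i`. The starting results for one
Frobenius element need one of: large Galois groups, degrees that are (twice) powers of a prime
number, or almost all slope types. Here the degrees are arbitrary and the Galois groups may be as
small as cyclic groups. We assume:

* (`HalfOrbit`) There is a set `O` of complex embeddings of `F i`, one of each pair of complex
  conjugate embeddings, which is an orbit of a group of automorphisms of `ℂ` that acts on `O`
  through a commutative group. By Chebotarev's density theorem it is enough that some prime number is
  inert in the maximal real subfield of `F i` and splits in `F i` (then one automorphism generates a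
  group with such an orbit; this is proved in the file `Criteria.lean`). If `F i` contains an
  imaginary quadratic field `E`, it is enough that some prime number is inert in the maximal real
  subfield (whose normal closure is real, and so linearly disjoint from `E`), and `O` is the set of
  the embeddings that extend a given embedding of `E`.
* (`GoodSlopes`) We write `cdev ν a x φ = 2 ord_p (x) - a` for the deviation of the slope of `x` at
  the embedding `φ` from the middle, where an isomorphism `ν` of the algebraic closure of `ℚ_p` with
  `ℂ` makes `φ` a `p`-adic embedding. For some `ν` the sum of the deviations of `π i` over `O` is not
  zero; and for some `ν` the deviations of `π i` on `O` are `b w + c` with real numbers `b ≠ 0`, `c`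
  and natural numbers `w`, such that **the sum `k` of the numbers `w` over `O` is not a sum of prime
  divisors of `n i`** (with repetitions; `0` is the empty sum).
* (`Separated`, only if there are several fields) For `i ≠ i'` some automorphism acts on the complex
  embeddings of each of the fields as `1` or as the complex conjugation, as `1` for `F i` and as the
  complex conjugation for `F i'`.

For instance let there be one field and let the slopes be `λ` and `1 - λ` only, `λ ≠ 1/2` (`λ = 0` is
the ordinary case). Then `w` can be the characteristic function of the set of the embeddings in `O`
with slope `1 - λ`, and `k` is the number of these embeddings; by the same argument for the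
complement, it is enough that `k` or `n - k` is not a sum of prime divisors of `n` (and `2 k ≠ n`).
For `n = 15` the only signatures `(k, n - k)` which are excluded are those with `k` or `n - k` equal
to `0, 3, 5, 6`. In general the condition is true if `0 < k` is less than all prime divisors of `n`,
and if `k = r s - r - s` and `n` is divisible by no primes other than `r` and `s` (proved in
`Criteria.lean`). Conversely, the condition cannot be improved for the cyclic group of order `n`: if
`k` is a sum of prime divisors of `n` then it is the sum of the values of a function `w` which is a
sum of characteristic functions of cosets of subgroups of prime order, and the translates of this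
`w` do not span the functions on the group.

Let `B` be an **arbitrary abelian variety** over `k`, and `M = H^b(B, ℚ_ℓ(j))`, or any other
representation of the Galois group `Γ` of `k`, such that the eigenvalues of the Frobenius element on
`M` are roots of a polynomial `f ≠ 0` with rational coefficients all of whose complex roots `α` are
unrelated to the fields `F i` (`UnrelatedTo`): a function `n` on the complex embeddings of `F i` with
`n (conj φ) = - n φ` which is invariant under all automorphisms of `ℂ` that fix a power of `α` is
zero. This is so if some automorphism which fixes a power of `α` acts on `F i` as the complex
conjugation: for instance if `B` is supersingular at `v`, or the fields generated by the Frobenius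
eigenvalues of `B` are linearly disjoint from the normal closures of the fields `F i`.

The theorem says (`TateClassesSplit`): **the classes in `H^j(A ^ r) ⊗ M` which are fixed by an open
subgroup of `Γ` are zero for odd `j`, and linear combinations of products of `m` Tate classes of
degree two on `A ^ r` (that is, of divisor classes, by Tate, Zarhin and Faltings) and of Tate classes
in `M(-m)` for `j = 2 m`.** The classes in `H^j(A ^ r) ⊗ M` are the alternating maps of `j` variables
from `V ^ r` to `M`. So for all these `A`, `B` and all `r` the Tate conjecture for `A ^ r × B` (all
codimensions, over all finite extensions) is equivalent to the Tate conjecture for `B`; for `B = 0` it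
is the Tate conjecture for all powers of `A`. The hypotheses on `V` (`IsPolarised`) are the Weil
pairing and the semisimplicity (Tate, Zarhin, Faltings).

The proof. Suppose that the product of some powers `φ (π i) ^ m (i, φ)` is a power of `q = p ^ a`, up
to a root of unity. Let `c (i, φ) = m (i, φ) - m (i, conj φ)`. The `p`-adic valuations of the images
under the automorphisms `σ` give `∑ c (i, φ) * cdev (σ φ) = 0`. `Separated` and Dedekind's theorem on
the linear independence of characters (of the group of the automorphisms acting as `± 1`) give these
relations for every `i` separately. The sum over the orbit `O` and the first slope condition give
`∑_O c = 0`, and then the second slope condition gives `∑_O c (φ) w (σ φ) = 0` for all `σ` in the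
group. The commutative transitive group `B` of permutations of `O` is simply transitive, so `w` is a
function on the group `B`, and if `c ≠ 0`, then a Fourier coefficient `∑ w (b) ψ (b)` of `w` for a
character `ψ` of `B` is zero. Its terms are `k` roots of unity of order dividing `n`, and by the
theorem of Lam and Leung (1996) on vanishing sums of roots of unity the number `k` of terms is a sum
of prime divisors of `n`, a contradiction. The theorem of Lam and Leung is proved in the files `LL`.
-/

set_option autoImplicit false

namespace Pool.Agent.Results.MP_7b53ad_ag.VanishingSums

open NumberField Module Pool.Agent.H204R3.CM Pool.Agent.Y1.CT Pool.Agent.Y1.TS
  Pool.Agent.Run7.h142.TF Pool.Agent.Run7.h479.SO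

/-- **The Tate conjecture for `A ^ r × B` is equivalent to the Tate conjecture for `B`, for the
abelian varieties `A` over finitely generated fields with a Frobenius element with good slopes on
half orbits, and all unrelated abelian varieties `B`.** -/
theorem result (p : ℕ) [Fact p.Prime] (a : ℕ) (ι : Type) [Fintype ι] (F : ι → Type)
    [∀ i, Field (F i)] [∀ i, NumberField (F i)] [∀ i, IsCMField (F i)] (π : ∀ i, F i)
    (hw : ∀ i, π i * IsCMField.complexConj (F i) (π i) = (p : F i) ^ a) (hsep : Separated F)
    (hgood : ∀ i, GoodSlopes p a (π i)) : TateClassesSplit (p := p) a F π := by
  have hang := angle_of_good hw hsep hgood
  have hπ0 : ∀ i, π i ≠ 0 := by
    intro i h0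
    have h1 := hw i
    rw [h0, zero_mul] at h1
    exact pow_ne_zero a (Nat.cast_ne_zero.2 (Fact.out : p.Prime).ne_zero) h1.symm
  exact split_of_angle (adjoin_of_angle hπ0 hang) hw hang

end Pool.Agent.Results.MP_7b53ad_ag.VanishingSums
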