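import Mathlib
import Pool.Agent.Run7.h479.SO.Frob
import Pool.Agent.Run7.h479.SO.Criteria

/-!
# The Tate conjecture for the powers of abelian varieties over number fields with a Frobenius element
whose slopes on a half orbit do not sum to a sum of prime divisors of the dimension

Let `A` be an abelian variety over a number field (or a finitely generated subfield of the complex
numbers), of any dimension and with arbitrary endomorphisms, which has good reduction at ONE place
`v`, with a residue field of `p ^ a` elements, such that the characteristic polynomial of the
Frobenius element at `v` is the product of the minimal polynomials of Weil numbers `π i` in CM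
fields `F i` of degree `2 n i` (`HasFrobenius`); so `dim A = ∑ i, n i`. The starting results for one
Frobenius element need one of: large Galois groups, degrees that are (twice) powers of a prime
number, or almost all slope types. Here the degrees are arbitrary and the Galois groups may be as
small as cyclic groups. We assume:

* (`HalfOrbit`) There is a set `O` of complex embeddings of `F i`, one of each pair of complex
  conjugate embeddings, which is an orbit of a group of automorphisms of `ℂ` that acts on `O`
  through a commutative group. By Chebotarev's density theorem it is enough that some prime number is
  inert in the maximal real subfield of `F i` and splits in `F i` (then one automorphism generates a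
  group with such an orbit; this is proved in the file `Criteria.lean`). If `F i` contains an
  imaginary quadratic field `E`, it is enough that some prime number is inert in the maximal real
  subfield (whose normal closure is real, and so linearly disjoint from `E`), and `O` is the set of
  the embeddings that extend a given embedding of `E`.
* (`GoodSlopes`) We write `cdev ν a x φ = 2 ord_p (x) - a` for the deviation of the slope of `x` at
  the embedding `φ` from the middle, where an isomorphism `ν` of the algebraic closure of `ℚ_p` with
  `ℂ` makes `φ` a `p`-adic embedding. For some `ν` the sum of the deviations of `π i` over `O` is not
  zero; and for some `ν` the deviations of `π i` on `O` are `b w + c` with real numbers `b ≠ 0`, `c`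
  and natural numbers `w`, such that **the sum `k` of the numbers `w` over `O` is not a sum of prime
  divisors of `n i`** (with repetitions; `0` is the empty sum).
* (`Separated`, only if there are several fields) For `i ≠ i'` some automorphism acts on the complex
  embeddings of each of the fields as `1` or as the complex conjugation, as `1` for `F i` and as the
  complex conjugation for `F i'`.

For instance let there be one field and let the slopes be `λ` and `1 - λ` only, `λ ≠ 1/2` (`λ = 0` is
the ordinary case). Then `w` can be the characteristic function of the set of the embeddings in `O`
with slope `1 - λ`, and `k` is the number of these embeddings; by the same argument for the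
complement, it is enough that `k` or `n - k` is not a sum of prime divisors of `n` (and `2 k ≠ n`).
For `n = 15` the only signatures `(k, n - k)` which are excluded are those with `k` or `n - k` equal
to `0, 3, 5, 6`. In general the condition is true if `0 < k` is less than all prime divisors of `n`,
and if `k = r s - r - s` and `n` is divisible by no primes other than `r` and `s` (proved in
`Criteria.lean`). Conversely, the condition cannot be improved for the cyclic group of order `n`: if
`k` is a sum of prime divisors of `n` then it is the sum of the values of a function `w` which is a
sum of characteristic functions of cosets of subgroups of prime order, and the translates of this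
`w` do not span the functions on the group.

**Then, for all prime numbers `ℓ` and all `n` and `m`, each Tate class in `H^{2 m}(A^n, ℚ_ℓ (m))` lies
in the `ℚ_ℓ`-linear span of the classes of algebraic cycles.** So the Tate conjecture holds for all
powers of `A`, over all finite extensions.

In the formal statement `V` is the rational Tate module with the action `ρ` of the Galois group and
the Weil pairing `ω` of a polarization (`IsTateModule`; with the semisimplicity theorem of Faltings),
`χ` is the cyclotomic character. The cohomology of `A ^ n` consists of the alternating forms on
`V ^ n`; a Tate class is a form that is fixed by a subgroup of finite index of the Galois group. The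
classes of cycles of codimension `m` are given by a set `C n m`; what is used is that the Tate classes
of degree two are combinations of classes of divisors (Faltings) and that intersections of divisors
are algebraic cycles (`IsCycleClasses`). That the absence of relations between the conjugates of the
Weil numbers of one Frobenius element implies that the Tate classes are generated in degree two was
formalized before (starting files, MP_938ce2_ag OneFrobenius).

The proof. Suppose that the product of some powers `φ (π i) ^ m (i, φ)` is a power of `q = p ^ a`, up
to a root of unity. Let `c (i, φ) = m (i, φ) - m (i, conj φ)`. The `p`-adic valuations of the images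
under the automorphisms `σ` give `∑ c (i, φ) * cdev (σ φ) = 0`. `Separated` and Dedekind's theorem on
the linear independence of characters (of the group of the automorphisms acting as `± 1`) give these
relations for every `i` separately. The sum over the orbit `O` and the first slope condition give
`∑_O c = 0`, and then the second slope condition gives `∑_O c (φ) w (σ φ) = 0` for all `σ` in the
group. The commutative transitive group `B` of permutations of `O` is simply transitive, so `w` is a
function on the group `B`, and if `c ≠ 0`, then a Fourier coefficient `∑ w (b) ψ (b)` of `w` for a
character `ψ` of `B` is zero. Its terms are `k` roots of unity of order dividing `n`, and by the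
theorem of Lam and Leung (1996) on vanishing sums of roots of unity the number `k` of terms is a sum
of prime divisors of `n`, a contradiction. The theorem of Lam and Leung is proved in the files `LL`.
-/

set_option autoImplicit false

namespace Pool.Agent.Results.MP_90d181_ag.VanishingSums

open NumberField Module Pool.Agent.H204R3.GP Pool.Agent.TH170 Pool.Agent.Run7.h479.SO

/-- **The Tate conjecture for the powers of abelian varieties over number fields with a Frobenius
element with good slopes on half orbits.** -/
theorem result (p : ℕ) [Fact p.Prime] (a : ℕ) (ha : 0 < a)
    (ι : Type) [Fintype ι] (F : ι → Type) [∀ i, Field (F i)] [∀ i, NumberField (F i)]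
    [∀ i, IsCMField (F i)] (π : ∀ i, F i)
    (hweil : ∀ i, π i * IsCMField.complexConj (F i) (π i) = (p : F i) ^ a)
    (hsep : Separated F) (hgood : ∀ i, GoodSlopes p a (π i))
    (ℓ : ℕ) [Fact ℓ.Prime] (V Γ : Type) [AddCommGroup V] [Module ℚ_[ℓ] V]
    [FiniteDimensional ℚ_[ℓ] V] [Group Γ]
    (ρ : Representation ℚ_[ℓ] Γ V) (χ : Γ →* ℚ_[ℓ]) (ω : V →ₗ[ℚ_[ℓ]] V →ₗ[ℚ_[ℓ]] ℚ_[ℓ])
    (D : ∀ n : ℕ, Set ((Fin n → V) [⋀^Fin 2]→ₗ[ℚ_[ℓ]] ℚ_[ℓ]))
    (C : ∀ n m : ℕ, Set ((Fin n → V) [⋀^Fin m × Fin 2]→ₗ[ℚ_[ℓ]] ℚ_[ℓ]))
    (hR : FT.IsTateModule ρ χ ω) (hC : FT.IsCycleClasses ρ χ D C)
    (hF : FT.HasFrobenius ρ χ p a π) (n m : ℕ)
    (f : (Fin n → V) [⋀^Fin m × Fin 2]→ₗ[ℚ_[ℓ]] ℚ_[ℓ]) (hf : IsTateClass ρ χ m f) :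
    f ∈ Submodule.span ℚ_[ℓ] (C n m) :=
  tate_of_good ha hweil hsep hgood hR hC hF n m f hf

end Pool.Agent.Results.MP_90d181_ag.VanishingSums
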