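import Mathlib
import Pool.Agent.Run7.h479.SO.Main
import Pool.Agent.Run7.h479.SO.Criteria
import Pool.Agent.Y1.TS.Main

/-!
# The Tate conjecture for products of smooth varieties with abelian varieties with a Frobenius element
whose slopes on a half orbit do not sum to a sum of prime divisors of the dimension

Let `F i` be finitely many CM fields, `[F i : ℚ] = 2 n i`, and `π i` a Weil number for `q = p ^ a` in
`F i`. The starting results on the Tate conjecture for all powers `A ^ r × U` need Galois groups that
are large, or degrees that are powers of a prime number, or almost all slope types. Here the degree is
arbitrary and the Galois group may be as small as a cyclic group; we need only one automorphism, or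
one commutative group of automorphisms, with a large orbit. We assume:

* (`HalfOrbit`) There is a set `O` of complex embeddings of `F i`, one of each pair of complex
  conjugate embeddings, which is an orbit of a group `A` of automorphisms of `ℂ` that acts on `O`
  through a commutative group. By Chebotarev's density theorem it is enough that some prime number is
  inert in the maximal real subfield of `F i` and splits in `F i` (then `A` is generated by one
  automorphism; this is proved in the first part of `HalfOrbitCriteria` in the file `Criteria.lean`). If `F i` contains an imaginary quadratic
  field `E`, it is enough that some prime number is inert in the maximal real subfield (whose normal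
  closure is real, and so linearly disjoint from `E`), and `O` is the set of the embeddings that
  extend a given embedding of `E`.
* (`GoodSlopes`) We write `cdev ν a x φ = 2 ord_p (x) - a` for the deviation of the slope of `x` at
  the embedding `φ` from the middle, where an isomorphism `ν` of the algebraic closure of `ℚ_p` with
  `ℂ` makes `φ` a `p`-adic embedding. For some `ν` the sum of the deviations of `π i` over `O` is not
  zero; and for some `ν` the deviations of `π i` on `O` are `b w + c` with real numbers `b ≠ 0`, `c`
  and natural numbers `w`, such that **the sum `k` of the numbers `w` over `O` is not a sum of prime
  divisors of `n i`** (with repetitions; `0` is the empty sum).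
* (`Separated`, only if there are several fields) For `i ≠ i'` some automorphism acts on the complex
  embeddings of each of the fields as `1` or as the complex conjugation, as `1` for `F i` and as the
  complex conjugation for `F i'`.

For instance let `n = 15`, and let the reduction `A₀` have dimension `15` and slopes `0` and `1` only,
or slopes `λ` and `1 - λ` only, `λ ≠ 1/2`. Then `w` is the characteristic function of the set of the
embeddings in `O` with slope `λ`, `k` is the number of these embeddings, and the sums of `3` and `5` are
all numbers except for `1, 2, 4, 7`. So the assumption is that `k` or `15 - k` is one of `1, 2, 4, 7`
(`-b` and `c + b` instead of `b` and `c` replaces `k` by `n - k`): the only signatures `(k, n - k)`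
which are excluded are those with `k` or `n - k` equal to `0, 3, 5, 6`. In general the condition is
true if `0 < k` is less than all prime divisors of `n`, and if `k = r s - r - s` and `n` is divisible
by no primes other than `r` and `s` (also proved in `Criteria.lean`). Conversely, the condition cannot be improved for
the cyclic group of order `n`: if `k` is a sum of prime divisors of `n` then it is the sum of the
values of a function `w` which is a sum of characteristic functions of cosets of subgroups of prime
order, and the translates of this `w` do not span the functions on the group.

Let now `k` be a finitely generated field (of any characteristic), `A` an abelian variety over `k`,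
and let `γ` be a Frobenius element of the Galois group `Γ` of `k` at **one** place of good reduction,
the residue field having `q = p ^ a` elements, for which the characteristic polynomial on the Tate
module `V = V_ℓ (A)` is the product of the minimal polynomials of the Weil numbers `π i`. Let `U` be
an **arbitrary smooth variety** over `k`, proper or not, and `M = W_b H^b(U, ℚ_ℓ(j))`, or any other
representation of `Γ`, such that

* the eigenvalues of `γ` on `M` are roots of a polynomial `f ≠ 0` with rational coefficients all of
  whose complex roots `α` are unrelated to the fields `F i` (`UnrelatedTo`): a function `n` on the
  complex embeddings of `F i` with `n (conj φ) = - n φ` which is invariant under all automorphisms of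
  `ℂ` that fix a power of `α` is zero. This is so if some automorphism which fixes a power of `α` acts
  on `F i` as the complex conjugation: for instance if a power of `α` lies in a field linearly disjoint
  from the normal closure of `F i`, or in a totally real field.

The theorem says (`TateClassesSplit`): **the classes in `H^j(A ^ r) ⊗ M` which are fixed by an open
subgroup of `Γ` are zero for odd `j`, and linear combinations of products of `m` Tate classes of
degree two on `A ^ r` (that is, of divisor classes, by Tate, Zarhin and Faltings) and of Tate classes
in `M(-m)` for `j = 2 m`.** The classes in `H^j(A ^ r) ⊗ M` are the alternating maps of `j` variables
from `V ^ r` to `M`. So for all these `A` and all these smooth varieties `U` the Tate conjecture for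
`A ^ r × U` (all codimensions, all `r`, over all finite extensions) is equivalent to the Tate
conjecture for `U`. If `U` is a point it is the Tate conjecture for all powers of `A`. The hypotheses
on `V` (`IsPolarised`) are the Weil pairing and the semisimplicity (Tate, Zarhin, Faltings).

The proof. Suppose that the product of some powers `φ (π i) ^ m (i, φ)` is a power of `q`, up to a
root of unity. Let `c (i, φ) = m (i, φ) - m (i, conj φ)`. The `p`-adic valuations of the images under
the automorphisms `σ` give `∑ c (i, φ) * cdev (σ φ) = 0`. `Separated` and Dedekind's theorem on the
linear independence of characters (of the group of the automorphisms acting as `± 1`) give these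
relations for every `i` separately. The sum over the orbit `O` of the first slope condition gives
`∑_O c = 0`, and then the second slope condition gives `∑_O c (φ) w (σ φ) = 0` for all `σ ∈ A`. The
commutative transitive group `B` of permutations of `O` is simply transitive, so `w` is a function on
the group `B`, and if `c ≠ 0`, then a Fourier coefficient `∑ w (b) ψ (b)` of `w` for a character
`ψ` of `B` is zero. Its terms are `k` roots of unity of order dividing `n`, and by the theorem of Lam
and Leung (1996) on vanishing sums of roots of unity, the number `k` of terms is a sum of prime
divisors of `n`, a contradiction. The theorem of Lam and Leung is proved in the files `LL`.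
-/

set_option autoImplicit false

namespace Pool.Agent.Results.MP_2a05c8_ag.VanishingSums

open NumberField Module Pool.Agent.H204R3.CM Pool.Agent.Y1.CT Pool.Agent.Y1.TS
  Pool.Agent.Run7.h142.TF Pool.Agent.Run7.h479.SO

/-- **The Tate conjecture for `A ^ r × U` is equivalent to the Tate conjecture for `U`, for the
abelian varieties `A` over finitely generated fields with a Frobenius element whose slopes on half
orbits do not sum to a sum of prime divisors of the number of elements of the half orbit, and all
unrelated smooth varieties `U`.** -/
theorem result (p : ℕ) [Fact p.Prime] (a : ℕ) (ι : Type) [Fintype ι] (F : ι → Type)
    [∀ i, Field (F i)] [∀ i, NumberField (F i)] [∀ i, IsCMField (F i)] (π : ∀ i, F i)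
    (hw : ∀ i, π i * IsCMField.complexConj (F i) (π i) = (p : F i) ^ a) (hsep : Separated F)
    (hgood : ∀ i, GoodSlopes p a (π i)) : TateClassesSplit (p := p) a F π := by
  have hang := angle_of_good hw hsep hgood
  have hπ0 : ∀ i, π i ≠ 0 := by
    intro i h0
    have h1 := hw i
    rw [h0, zero_mul] at h1
    exact pow_ne_zero a (Nat.cast_ne_zero.2 (Fact.out : p.Prime).ne_zero) h1.symm
  exact split_of_angle (adjoin_of_angle hπ0 hang) hw hang

end Pool.Agent.Results.MP_2a05c8_ag.VanishingSums
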