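import Mathlib
import Pool.Agent.Run7.h479.SO.TB
import Pool.Agent.Run7.h479.SO.Criteria
import Pool.Agent.TH117.GN.WeilEtaleDefs

/-!
# Finite generation of Weil-étale motivic cohomology for varieties generated by abelian varieties over
finite fields whose slopes on a half orbit do not sum to a sum of prime divisors of the dimension

Over an algebraic closure of the field with `p` elements each abelian variety is isogenous to the
reduction of an abelian variety of CM type (Honda, Tate). So an abelian variety over the field with
`p ^ b` elements is modelled by `RedAV`: a finite product of CM types `(E l, Φ l)` with Weil numbers
in `E l` (the Frobenius endomorphism) that satisfy the formula of Shimura and Taniyama; its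
cohomology of degree `n`, with coefficients in an algebraically closed field `Ω`, consists of the
alternating `n`-forms on `Ω ⊗ H_1`, on which the Frobenius endomorphism acts by the Weil numbers. We
fix an isomorphism `ν` of the algebraic closure of `ℚ_p` with `ℂ`; it defines a `p`-adic valuation of
`ℂ`, with the value one at `p`.

Let `π i` be finitely many Weil numbers for `q = p ^ a` in CM fields `F i` of degree `2 n i`, with
`π i * conj (π i) = q`. They belong to isogeny classes of simple abelian varieties `A i` over the
field with `q` elements. Let `𝒞` (`PowersOf π`) be the class of the abelian varieties `Y` over finite
fields of characteristic `p` each of whose factors is supersingular or has a Frobenius endomorphism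
some power of which is a power of `π i` for some `i`. So `Y` is, over an algebraic closure, isogenous
to a product of powers of the abelian varieties `A i` (of any exponents) and of a supersingular
abelian variety; the class contains all products of powers of its members, and the products of its
members with supersingular abelian varieties. The starting results need one of: large Galois groups,
degrees that are (twice) powers of a prime number, or almost all slope types. Here the degrees are
arbitrary and the Galois groups may be as small as cyclic groups. We assume:

* (`HalfOrbit`) There is a set `O` of complex embeddings of `F i`, one of each pair of complex
  conjugate embeddings, which is an orbit of a group of automorphisms of `ℂ` that acts on `O`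
  through a commutative group. By Chebotarev's density theorem it is enough that some prime number is
  inert in the maximal real subfield of `F i` and splits in `F i` (then one automorphism generates a
  group with such an orbit; this is proved in the file `Criteria.lean`). If `F i` contains an
  imaginary quadratic field `E`, it is enough that some prime number is inert in the maximal real
  subfield (whose normal closure is real, and so linearly disjoint from `E`), and `O` is the set of
  the embeddings that extend a given embedding of `E`.
* (`GoodSlopes`) We write `cdev ν a x φ = 2 ord_p (x) - a` for the deviation of the slope of `x` at
  the embedding `φ` from the middle, where an isomorphism `ν` of the algebraic closure of `ℚ_p` with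
  `ℂ` makes `φ` a `p`-adic embedding. For some `ν` the sum of the deviations of `π i` over `O` is not
  zero; and for some `ν` the deviations of `π i` on `O` are `b w + c` with real numbers `b ≠ 0`, `c`
  and natural numbers `w`, such that **the sum `k` of the numbers `w` over `O` is not a sum of prime
  divisors of `n i`** (with repetitions; `0` is the empty sum).
* (`Separated`, only if there are several fields) For `i ≠ i'` some automorphism acts on the complex
  embeddings of each of the fields as `1` or as the complex conjugation, as `1` for `F i` and as the
  complex conjugation for `F i'`.

For instance let there be one field and let the slopes be `λ` and `1 - λ` only, `λ ≠ 1/2` (`λ = 0` is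
the ordinary case). Then `w` can be the characteristic function of the set of the embeddings in `O`
with slope `1 - λ`, and `k` is the number of these embeddings; by the same argument for the
complement, it is enough that `k` or `n - k` is not a sum of prime divisors of `n` (and `2 k ≠ n`).
For `n = 15` the only signatures `(k, n - k)` which are excluded are those with `k` or `n - k` equal
to `0, 3, 5, 6`. In general the condition is true if `0 < k` is less than all prime divisors of `n`,
and if `k = r s - r - s` and `n` is divisible by no primes other than `r` and `s` (proved in
`Criteria.lean`). Conversely, the condition cannot be improved for the cyclic group of order `n`: if
`k` is a sum of prime divisors of `n` then it is the sum of the values of a function `w` which is a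
sum of characteristic functions of cosets of subgroups of prime order, and the translates of this
`w` do not span the functions on the group.

`Homology Ω V` are data of motivic homology `M X i j = H_i^M(X, ℚ(j)) = CH_j(X, i - 2 j) ⊗ ℚ` and of
`ℓ`-adic homology `E X i j = H_i(X, ℚ_ℓ(j))` (coefficients extended to `Ω`) of schemes `X` of finite
type over a finite field (the elements of `V`), with the Frobenius and the regulator. Let `𝒢` be the
smallest class (`Generated`) of such schemes that contains those with the homology groups of abelian
varieties in `𝒞` (`IsAbelianPowersOf`), that is closed under direct summands of finite sums of twists
of motives, and that contains all of a closed subscheme `Z` of `X`, `X` and `X ∖ Z` if it contains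
two of them. It contains for instance all products of varieties in `𝒞`, all products of curves with
Jacobians in `𝒞` and of open subsets of such curves, symmetric powers of them, and the singular and
the open varieties with a stratification by such varieties.

**Then for all smooth projective varieties `X` in `𝒢` (the property `S`) and all `n` and `i` the
Weil-étale motivic cohomology group `W X n i = H^i_W(X, ℤ(n))` is finitely generated.** We use the
theorem of Geisser and Kahn (`IsWeilEtale`) that these groups are finitely generated if for `X` the
conjecture of Tate and Beilinson `TB` holds (for all degrees and twists).

Properties of the theory of cycles that are used for the abelian varieties (`IsChow`,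
`IsMotivic`): Poincaré duality, the formal properties of correspondences, the nilpotence of
homologically trivial correspondences (Kimura), the operation of the Frobenius endomorphism on higher
Chow groups, the vanishing of the higher rational `K`-groups of a finite field (Quillen), and the
algebraicity of the classes in `Alg` (of which only products of classes of divisors matter here,
theorem of Tate). The passage from the Tate conjecture to all degrees and to the class `Generated` is
due to Soulé, Geisser, Kahn and Jannsen; it was formalized in the starting files and by helper117
(MP_2ce3e7_ag GeneratedByAbelian).

The proof. Suppose that the product of some powers `φ (π i) ^ m (i, φ)` is a power of `q = p ^ a`, up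
to a root of unity. Let `c (i, φ) = m (i, φ) - m (i, conj φ)`. The `p`-adic valuations of the images
under the automorphisms `σ` give `∑ c (i, φ) * cdev (σ φ) = 0`. `Separated` and Dedekind's theorem on
the linear independence of characters (of the group of the automorphisms acting as `± 1`) give these
relations for every `i` separately. The sum over the orbit `O` and the first slope condition give
`∑_O c = 0`, and then the second slope condition gives `∑_O c (φ) w (σ φ) = 0` for all `σ` in the
group. The commutative transitive group `B` of permutations of `O` is simply transitive, so `w` is a
function on the group `B`, and if `c ≠ 0`, then a Fourier coefficient `∑ w (b) ψ (b)` of `w` for a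
character `ψ` of `B` is zero. Its terms are `k` roots of unity of order dividing `n`, and by the
theorem of Lam and Leung (1996) on vanishing sums of roots of unity the number `k` of terms is a sum
of prime divisors of `n`, a contradiction. The theorem of Lam and Leung is proved in the files `LL`.
So all relations between the Frobenius eigenvalues of `Y` are generated by those of the complex
conjugate pairs and of the supersingular factors.
-/

set_option autoImplicit false

namespace Pool.Agent.Results.MP_cb388a_ag.VanishingSums

open NumberField Module Pool.Agent.W495.TA Pool.Agent.Run7.h479.SO
  Pool.Agent.W495.FM
open Pool.Agent.TH117.GN (IsWeilEtale)

/-- **The Weil-étale motivic cohomology groups of all smooth projective varieties generated by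
abelian varieties over finite fields whose slopes on a half orbit do not sum to a sum of prime
divisors of the dimension are finitely generated.** -/
theorem result (p : ℕ) [Fact p.Prime] (ν : PadicAlgCl p ≃+* ℂ) (a : ℕ) (ha : 0 < a)
    (ι : Type) [Fintype ι] (F : ι → Type) [∀ i, Field (F i)] [∀ i, NumberField (F i)]
    [∀ i, IsCMField (F i)] (π : ∀ i, F i)
    (hweil : ∀ i, π i * IsCMField.complexConj (F i) (π i) = (p : F i) ^ a)
    (hsep : Separated F) (hgood : ∀ i, GoodSlopes p a (π i))
    (Ω : Type) [Field Ω] [IsAlgClosed Ω] [CharZero Ω] (V : Type) (T : Homology Ω V)
    (hT : IsHomology T) (S : V → Prop) (W : V → ℤ → ℤ → Type) [∀ X n i, AddCommGroup (W X n i)]
    (hW : IsWeilEtale T S W) (X : V) (hS : S X) (hX : Generated T (IsAbelianPowersOf ν π T) X)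
    (n i : ℤ) : AddGroup.FG (W X n i) :=
  hW X hS (tb_good ha hweil hsep hgood hT hX) n i

end Pool.Agent.Results.MP_cb388a_ag.VanishingSums
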